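import Mathlib
import Pool.Agent.K3h16.MI.All
import Pool.Agent.K3h51.MI.Int
import Pool.Agent.K3h23.MI.Holm

set_option autoImplicit false

/-!
# Moebius invariance of the nu-weighted energy (MP_34b615_gt)

Let `M` be an oriented closed submanifold of `ℝⁿ` of dimension `m ≥ 1` and `T` a Moebius
transformation with `∞ ∉ T(M)`.  Then the quantity `W` (the value at `z = -2m` of the continuation
`B` of `∬ λ_ν(x,y) |x-y|^z dv dv` for odd `m`, its residue there for even `m`) is the same for `M`
and for `T(M)`.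

Proof.  Let `μ(x,y)` be the determinant of the matrix with the entries
`⟨v_i, w_j⟩ - 2 ⟨v_i, r⟩ ⟨r, w_j⟩ / |r|²`, `r = x - y`, for positively oriented orthonormal bases
`v`, `w` of `T_x M`, `T_y M`; up to sign, `μ(x,y) |r|^(-2m) dv dv` is the `m`-th exterior power of
the form `d_x d_y log |x-y|`, which is Moebius invariant because
`|Tx - Ty|² = ρ(x) ρ(y) |x-y|²`.

(1) For fixed `x` the forms `|r|^z ⟨r, v_i⟩ ∧ (⟨v_j, dy⟩, j ≠ i)` in `y` have integral zero
derivative over `M` (Stokes), and this gives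
`∫ μ(x,y) |x-y|^z dv(y) = (1 + 2m/z) ∫ λ_ν(x,y) |x-y|^z dv(y)` for every `x` in `M`.

(2) So `B'(z) = z/(z+2m) ∬ (ρ(x) ρ(y))^(z/2+m) μ(x,y) |x-y|^z dv dv` for the energy function `B'`
of `T(M)`.  Expanding the weight to second order in `z + 2m` and using (1) again for the linear term,
one gets `B'(z) = B(z) + (z+2m) D(z)`, where `D` is a sum of energies of the same kind with smooth
weights.

(3) In polar coordinates in charts all these energies have continuations with at most simple poles at
`z = -m, -m-1, ..., -2m`, and for odd `m` there is no pole at `-2m` by parity.  Hence for odd `m` the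
values of `B` and `B'` at `-2m` agree, and for even `m` the residues agree.
-/

open MeasureTheory Set Filter Topology

namespace Pool.Agent.Results.MP_34b615_gt.MoebiusInvariance

open Pool.Agent.K3h16.MI

/-- `B` is the nu-weighted meromorphic energy function of the submanifold with the oriented
orthonormal frame `e` and the volume element `v`: the continuation of
`∬ λ_ν(x,y) |x-y|^z dv(x) dv(y)`, `Re z > -m`, to the half plane `Re z > -2m-1`. -/
def IsEnergyFunction {m n : ℕ} (e : E n → Fin m → E n) (v : Measure (E n)) (B : ℂ → ℂ) : Prop :=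
  (∀ z : ℂ, -(2 * (m : ℝ)) - 1 < z.re → MeromorphicAt B z) ∧
  ∀ z : ℂ, -(m : ℝ) < z.re →
    B z = ∫ x, ∫ y, (pairing (e x) (e y) : ℂ) * (‖x - y‖ : ℂ) ^ z ∂v ∂v

/-- `w` is the quantity `W`: the energy function exists, and at `z = -2m` it has the value `w` if `m`
is odd, and a pole which is at most simple and has the residue `w` if `m` is even. -/
def IsW {m n : ℕ} (e : E n → Fin m → E n) (v : Measure (E n)) (w : ℂ) : Prop :=
  (∃ B : ℂ → ℂ, IsEnergyFunction e v B) ∧
  ∀ B : ℂ → ℂ, IsEnergyFunction e v B →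
    (Odd m → Tendsto B (𝓝[≠] (-(2 * (m : ℂ)))) (𝓝 w)) ∧
    (Even m → Tendsto (fun z => (z + 2 * m) * B z) (𝓝[≠] (-(2 * (m : ℂ)))) (𝓝 w))

/-- `W(T(M)) = W(M)` for every oriented closed submanifold `M` of `ℝⁿ` of dimension `m ≥ 1` and
every Moebius transformation `T` with `∞ ∉ T(M)`, where `T(M)` carries the orientation transported
by `T`. -/
theorem result {m n : ℕ} (hm : 1 ≤ m) (M : Set (E n)) (e e' : E n → Fin m → E n)
    (v v' : Measure (E n)) (T : E n → E n) (hM : IsOCS M e v) (hT : IsMoebius T M)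
    (hM' : IsOCS (T '' M) e' v')
    (hor : ∀ x ∈ M, SameOr (e' (T x)) (fun i => fderiv ℝ T x (e x i))) :
    ∃ w : ℂ, IsW e v w ∧ IsW e' v' w := by
  have hHOLM : S_HOLM := Pool.Agent.K3h23.MI.t_HOLM
    (Pool.Agent.K3h51.MI.t_INT p_POU p_CHI Pool.Agent.K3h49.MI.t_HAD p_FIN) p_CONT p_FIN
  obtain ⟨w, h1, h2⟩ := invariance p_PHI p_CONF1 p_GOODM p_MASTER hm M e e' v v' T hM hT hM' hor
  exact ⟨w, ⟨exists_energy p_GOODM hHOLM hm M e v hM, fun B hB => h1 B hB.1 hB.2⟩,
    ⟨exists_energy p_GOODM hHOLM hm (T '' M) e' v' hM', fun B hB => h2 B hB.1 hB.2⟩⟩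

end Pool.Agent.Results.MP_34b615_gt.MoebiusInvariance
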